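import Mathlib

/-!
Two functions which are almost inverse to each other have the same logarithmic asymptotics.
-/

set_option autoImplicit false

namespace Pool.Agent.Run7.h945.ZG

open Filter Topology

lemma log_tendsto : Tendsto (fun n : ℕ => Real.log n) atTop atTop :=
  Real.tendsto_log_atTop.comp tendsto_natCast_atTop_atTop

lemma const_div {β : ℝ} (hβ : 0 < β) (C : ℝ) {g : ℕ → ℕ} (hg : Tendsto g atTop atTop) :
    Tendsto (fun n => C / Real.log (g n) ^ β) atTop (𝓝 0) := by
  have h1 : Tendsto (fun n => Real.log (g n) ^ β) atTop atTop :=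
    (tendsto_rpow_atTop hβ).comp (log_tendsto.comp hg)
  exact h1.const_div_atTop C

lemma change {β c : ℝ} {f : ℕ → ℝ}
    (hf : Tendsto (fun N => f N / Real.log N ^ β) atTop (𝓝 c)) {g : ℕ → ℕ}
    (hg : Tendsto g atTop atTop)
    (hg1 : Tendsto (fun n => Real.log (g n) / Real.log n) atTop (𝓝 1)) :
    Tendsto (fun n => f (g n) / Real.log n ^ β) atTop (𝓝 c) := by
  have h1 : Tendsto (fun n => (Real.log (g n) / Real.log n) ^ β) atTop (𝓝 ((1 : ℝ) ^ β)) :=
    hg1.rpow_const (Or.inl one_ne_zero)
  rw [Real.one_rpow] at h1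
  have h2 := (hf.comp hg).mul h1
  rw [mul_one] at h2
  refine h2.congr' ?_
  filter_upwards [eventually_gt_atTop 1, hg.eventually (eventually_gt_atTop 1)] with n hn hn'
  have e1 : 0 < Real.log n := Real.log_pos (by exact_mod_cast hn)
  have e2 : 0 < Real.log (g n) := Real.log_pos (by exact_mod_cast hn')
  simp only [Function.comp]
  rw [Real.div_rpow e2.le e1.le]
  have e3 : Real.log (g n) ^ β ≠ 0 := (Real.rpow_pos_of_pos e2 _).ne'
  field_simp

section

variable {r S : ℕ → ℕ} (hr0 : r 0 = 0) (hrS : ∀ N, r (N + 1) ≤ r N + 1) (hrmono : Monotone r)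
  (hrle : ∀ N, r N ≤ N)
  (hB : ∀ N : ℕ, (N : ℝ) * Real.exp (-4 * √(Real.log N)) ≤ r N)
  (hrr : ∀ M N : ℕ, 0 < N → (r M : ℝ) ≤ ((M : ℝ) + N) * ((r N : ℝ) / N))
  (hS1 : ∀ N, S (r N) ≤ 2 * N) (hSn : ∀ n, n ≤ S n) (hS2 : ∀ n, n ≤ 8 * r (2 * S n))

include hB in
lemma r_pos' {N : ℕ} (hN : 1 ≤ N) : 1 ≤ r N := by
  have h1 := hB N
  have h2 : (0 : ℝ) < N := by exact_mod_cast hN
  have h3 : (0 : ℝ) < r N := lt_of_lt_of_le (by positivity) h1
  exact_mod_cast h3

include hB in
lemma l_le {N : ℕ} (hN : 1 ≤ N) : Real.log (N / r N) ≤ 4 * √(Real.log N) := by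
  have h1 := hB N
  have h2 : (0 : ℝ) < N := by exact_mod_cast hN
  have h3 : (0 : ℝ) < r N := by exact_mod_cast r_pos' hB hN
  have h4 : (N : ℝ) / r N ≤ Real.exp (4 * √(Real.log N)) := by
    rw [div_le_iff₀ h3]
    have h5 := mul_le_mul_of_nonneg_left h1 (Real.exp_pos (4 * √(Real.log N))).le
    have e : Real.exp (4 * √(Real.log N)) * (N * Real.exp (-4 * √(Real.log N))) = N := by
      have : Real.exp (4 * √(Real.log N)) * Real.exp (-4 * √(Real.log N)) = 1 := by
        rw [← Real.exp_add]
        simp
      calc _ = N * (Real.exp (4 * √(Real.log N)) * Real.exp (-4 * √(Real.log N))) := by ring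
        _ = N := by rw [this, mul_one]
    rw [e] at h5
    exact h5
  calc Real.log (N / r N) ≤ Real.log (Real.exp (4 * √(Real.log N))) :=
        Real.log_le_log (by positivity) h4
    _ = _ := Real.log_exp _

include hrle in
lemma l_nonneg {N : ℕ} : 0 ≤ Real.log (N / r N) := by
  rcases Nat.eq_zero_or_pos (r N) with h | h
  · rw [h]
    simp
  · apply Real.log_nonneg
    rw [one_le_div (by exact_mod_cast h)]
    exact_mod_cast hrle N

include hB hrle in
/-- `log (r N) / log N → 1` -/
lemma log_r : Tendsto (fun N => Real.log (r N) / Real.log N) atTop (𝓝 1) := by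
  have h0 : Tendsto (fun N : ℕ => 4 / √(Real.log N)) atTop (𝓝 0) :=
    (Real.tendsto_sqrt_atTop.comp log_tendsto).const_div_atTop 4
  have h1 : Tendsto (fun N : ℕ => 1 - 4 / √(Real.log N)) atTop (𝓝 (1 - 0)) :=
    tendsto_const_nhds.sub h0
  rw [sub_zero] at h1
  refine tendsto_of_tendsto_of_tendsto_of_le_of_le' h1 tendsto_const_nhds ?_ ?_
  · filter_upwards [eventually_gt_atTop 1] with N hN
    have e1 : 0 < Real.log N := Real.log_pos (by exact_mod_cast hN)
    have e2 : (0 : ℝ) < r N := by exact_mod_cast r_pos' hB hN.le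
    have e3 : (0 : ℝ) < N := by positivity
    have h2 := l_le hB hN.le
    rw [Real.log_div e3.ne' e2.ne'] at h2
    rw [le_div_iff₀ e1]
    have e4 : √(Real.log N) * √(Real.log N) = Real.log N := Real.mul_self_sqrt e1.le
    have e5 : 0 < √(Real.log N) := Real.sqrt_pos.2 e1
    have e6 : (1 - 4 / √(Real.log N)) * Real.log N = Real.log N - 4 * √(Real.log N) := by
      rw [sub_mul, one_mul]
      congr 1
      nth_rewrite 2 [← e4]
      field_simp
    rw [e6]
    linarith
  · filter_upwards [eventually_gt_atTop 1] with N hN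
    have e1 : 0 < Real.log N := Real.log_pos (by exact_mod_cast hN)
    have e2 : (0 : ℝ) < r N := by exact_mod_cast r_pos' hB hN.le
    rw [div_le_one e1]
    exact Real.log_le_log e2 (by exact_mod_cast hrle N)

include hB in
lemma r_tendsto (hrmono : Monotone r) (hrle : ∀ N, r N ≤ N) : Tendsto r atTop atTop := by
  have h1 := log_r hrle hB
  have h2 : Tendsto (fun N => Real.log (r N)) atTop atTop := by
    have h3 := h1.pos_mul_atTop one_pos log_tendsto
    refine h3.congr' ?_
    filter_upwards [eventually_gt_atTop 1] with N hN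
    have e1 : 0 < Real.log N := Real.log_pos (by exact_mod_cast hN)
    field_simp
  rw [tendsto_atTop_atTop]
  intro b
  obtain ⟨N, hN⟩ := (tendsto_atTop_atTop.1 h2) (Real.log (b + 1) + 1)
  refine ⟨max N 1, fun M hM => ?_⟩
  by_contra hlt
  push Not at hlt
  have h3 := hN M (le_trans (le_max_left _ _) hM)
  have h4 : (0 : ℝ) < r M := by exact_mod_cast r_pos' hB (le_trans (le_max_right _ _) hM)
  have h5 : Real.log (r M) ≤ Real.log (b + 1) := Real.log_le_log h4 (by
    have : (r M : ℝ) < b := by exact_mod_cast hlt
    linarith)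
  linarith

include hr0 hrS in
/-- `r` takes all values up to any value -/
lemma exists_eq : ∀ (N n : ℕ), n ≤ r N → ∃ M ≤ N, r M = n := by
  intro N
  induction N with
  | zero =>
    intro n hn
    exact ⟨0, le_rfl, by omega⟩
  | succ N ih =>
    intro n hn
    have h1 := hrS N
    rcases Nat.lt_or_ge (r N) n with h | h
    · exact ⟨N + 1, le_rfl, by omega⟩
    · obtain ⟨M, hM, h2⟩ := ih n h
      exact ⟨M, by omega, h2⟩

include hrr hB in
lemma l_mono {M N : ℕ} (hN : 1 ≤ N) (hNM : N ≤ M) :
    Real.log (N / r N) ≤ Real.log (M / r M) + Real.log 2 := by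
  have e1 : (0 : ℝ) < r N := by exact_mod_cast r_pos' hB hN
  have e2 : (0 : ℝ) < r M := by exact_mod_cast r_pos' hB (hN.trans hNM)
  have e3 : (0 : ℝ) < N := by exact_mod_cast hN
  have e4 : (N : ℝ) ≤ M := by exact_mod_cast hNM
  have e5 : (0 : ℝ) < M := by linarith
  have h1 := hrr M N hN
  rw [← Real.log_mul (by positivity) two_ne_zero]
  apply Real.log_le_log (by positivity)
  rw [div_mul_eq_mul_div, div_le_div_iff₀ e1 e2]
  have h2 : (r M : ℝ) * N ≤ ((M : ℝ) + N) * r N := by
    have h3 := mul_le_mul_of_nonneg_right h1 e3.le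
    have e : ((M : ℝ) + N) * ((r N : ℝ) / N) * N = ((M : ℝ) + N) * r N := by field_simp
    rw [e] at h3
    exact h3
  nlinarith

include hr0 hrS hrmono hrle hB hrr hS1 hSn hS2 in
/-- **The asymptotics.** -/
theorem asymp {β c : ℝ} (hβ : 0 < β) :
    Tendsto (fun N : ℕ => Real.log (N / r N) / Real.log N ^ β) atTop (𝓝 c) ↔
      Tendsto (fun n : ℕ => Real.log (S n / n) / Real.log n ^ β) atTop (𝓝 c) := by
  have hrt := r_tendsto hB hrmono hrle
  have hlr := log_r hrle hB
  -- a choice of `N` with `r N = n`
  have hex : ∀ n, ∃ N, r N = n := by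
    intro n
    obtain ⟨N, hN⟩ := (tendsto_atTop.1 hrt n).exists
    obtain ⟨M, -, hM⟩ := exists_eq hr0 hrS N n hN
    exact ⟨M, hM⟩
  choose g hg using hex
  have hgn : ∀ n, n ≤ g n := fun n => by
    have := hrle (g n)
    rwa [hg] at this
  have hgt : Tendsto g atTop atTop := tendsto_atTop_mono hgn tendsto_id
  have hg1 : Tendsto (fun n => Real.log (g n) / Real.log n) atTop (𝓝 1) := by
    have h1 := (hlr.comp hgt).inv₀ one_ne_zero
    rw [inv_one] at h1
    refine h1.congr fun n => ?_
    simp only [Function.comp]
    rw [hg, inv_div]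
  have hS0 : ∀ {n : ℕ}, 1 ≤ n → (0 : ℝ) < S n := fun {n} hn => by
    have := hSn n
    exact_mod_cast (show 0 < S n by omega)
  constructor
  · intro hl
    -- the upper bound
    have hup : Tendsto (fun n => (Real.log ((g n : ℝ) / r (g n)) + Real.log 2) / Real.log n ^ β)
        atTop (𝓝 c) := by
      have h1 := (change hl hgt hg1).add (const_div hβ (Real.log 2) (g := fun n => n) tendsto_id)
      rw [add_zero] at h1
      refine h1.congr fun n => ?_
      rw [← add_div]
    -- the lower bound
    have hmt : Tendsto (fun n => 2 * S n) atTop atTop :=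
      tendsto_atTop_mono (fun n => by have := hSn n; simp only [id]; omega) tendsto_id
    have hm1 : Tendsto (fun n => Real.log ((2 * S n : ℕ) : ℝ) / Real.log n) atTop (𝓝 1) := by
      have h2 : Tendsto (fun n : ℕ => (Real.log 4 + Real.log (g n)) / Real.log n) atTop
          (𝓝 (0 + 1)) := by
        have h3 : Tendsto (fun n : ℕ => Real.log 4 / Real.log n) atTop (𝓝 0) :=
          log_tendsto.const_div_atTop _
        refine (h3.add hg1).congr fun n => ?_
        rw [← add_div]
      rw [zero_add] at h2
      refine tendsto_of_tendsto_of_tendsto_of_le_of_le' tendsto_const_nhds h2 ?_ ?_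
      · filter_upwards [eventually_gt_atTop 1] with n hn
        have e1 : 0 < Real.log n := Real.log_pos (by exact_mod_cast hn)
        rw [le_div_iff₀ e1, one_mul]
        apply Real.log_le_log (by positivity)
        have := hSn n
        exact_mod_cast (show n ≤ 2 * S n by omega)
      · filter_upwards [eventually_gt_atTop 1] with n hn
        have e1 : 0 < Real.log n := Real.log_pos (by exact_mod_cast hn)
        have e2 := hgn n
        have e3 : (0 : ℝ) < g n := by exact_mod_cast (show 0 < g n by omega)
        apply div_le_div_of_nonneg_right _ e1.le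
        rw [← Real.log_mul (by norm_num) e3.ne']
        have e4 := hS0 hn.le
        apply Real.log_le_log (by push_cast; positivity)
        have h4 := hS1 (g n)
        rw [hg] at h4
        have : 2 * S n ≤ 4 * g n := by omega
        exact_mod_cast this
    have hlow : Tendsto (fun n => (Real.log (((2 * S n : ℕ) : ℝ) / r (2 * S n)) - Real.log 16) /
        Real.log n ^ β) atTop (𝓝 c) := by
      have h1 := (change hl hmt hm1).sub
        (const_div hβ (Real.log 16) (g := fun n => n) tendsto_id)
      rw [sub_zero] at h1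
      refine h1.congr fun n => ?_
      rw [← sub_div]
    refine tendsto_of_tendsto_of_tendsto_of_le_of_le' hlow hup ?_ ?_
    · filter_upwards [eventually_gt_atTop 1] with n hn
      have e1 : 0 < Real.log n := Real.log_pos (by exact_mod_cast hn)
      apply div_le_div_of_nonneg_right _ (by positivity)
      have e2 := hS0 hn.le
      have e3 : (0 : ℝ) < n := by positivity
      have e4 : (0 : ℝ) < r (2 * S n) := by
        exact_mod_cast r_pos' hB (show 1 ≤ 2 * S n by have := hSn n; omega)
      rw [sub_le_iff_le_add, ← Real.log_mul (by positivity) (by norm_num)]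
      apply Real.log_le_log (by push_cast; positivity)
      rw [div_mul_eq_mul_div, div_le_div_iff₀ e4 e3]
      have h5 : (n : ℝ) ≤ 8 * r (2 * S n) := by exact_mod_cast hS2 n
      push_cast
      nlinarith
    · filter_upwards [eventually_gt_atTop 1] with n hn
      have e1 : 0 < Real.log n := Real.log_pos (by exact_mod_cast hn)
      apply div_le_div_of_nonneg_right _ (by positivity)
      have e2 := hS0 hn.le
      have e3 : (0 : ℝ) < n := by positivity
      have e5 := hgn n
      have e6 : (0 : ℝ) < g n := by exact_mod_cast (show 0 < g n by omega)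
      rw [hg, ← Real.log_mul (by positivity) (by norm_num)]
      apply Real.log_le_log (by positivity)
      rw [div_mul_eq_mul_div, div_le_div_iff₀ e3 e3]
      have h4 := hS1 (g n)
      rw [hg] at h4
      have h5 : (S n : ℝ) ≤ 2 * g n := by exact_mod_cast h4
      nlinarith
  · intro hs
    -- the lower bound
    have hlow : Tendsto (fun N => (Real.log ((S (r N) : ℝ) / r N) - Real.log 2) /
        Real.log N ^ β) atTop (𝓝 c) := by
      have h1 := (change hs hrt hlr).sub
        (const_div hβ (Real.log 2) (g := fun n => n) tendsto_id)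
      rw [sub_zero] at h1
      refine h1.congr fun n => ?_
      rw [← sub_div]
    -- the upper bound
    have hex2 : ∀ N, ∃ n, N ≤ 2 * S n := fun N => ⟨N, by have := hSn N; omega⟩
    classical
    set h : ℕ → ℕ := fun N => Nat.find (hex2 N) with hh
    have hN : ∀ N, N ≤ 2 * S (h N) := fun N => Nat.find_spec (hex2 N)
    have hhN : ∀ N, h N ≤ N := fun N => Nat.find_min' (hex2 N) (by have := hSn N; omega)
    have hht : Tendsto h atTop atTop := by
      rw [tendsto_atTop]
      intro K
      filter_upwards [eventually_gt_atTop (2 * ∑ n ∈ Finset.range K, S n)] with N hNK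
      by_contra hlt
      push Not at hlt
      have h1 : S (h N) ≤ ∑ n ∈ Finset.range K, S n :=
        Finset.single_le_sum (f := S) (fun _ _ => Nat.zero_le _) (Finset.mem_range.2 hlt)
      have := hN N
      omega
    have hup : Tendsto (fun N => (Real.log ((S (h N) : ℝ) / h N) + Real.log 32) /
        Real.log (h N) ^ β) atTop (𝓝 c) := by
      have h1 := (hs.comp hht).add (const_div hβ (Real.log 32) hht)
      rw [add_zero] at h1
      refine h1.congr fun n => ?_
      simp only [Function.comp]
      rw [← add_div]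
    refine tendsto_of_tendsto_of_tendsto_of_le_of_le' hlow hup ?_ ?_
    · filter_upwards [eventually_gt_atTop 1] with N hN1
      have e1 : 0 < Real.log N := Real.log_pos (by exact_mod_cast hN1)
      apply div_le_div_of_nonneg_right _ (by positivity)
      have hr1 := r_pos' hB hN1.le
      have e2 := hS0 hr1
      have e3 : (0 : ℝ) < r N := by exact_mod_cast hr1
      have e4 : (0 : ℝ) < N := by positivity
      rw [sub_le_iff_le_add, ← Real.log_mul (by positivity) (by norm_num)]
      apply Real.log_le_log (by positivity)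
      rw [div_mul_eq_mul_div, div_le_div_iff₀ e3 e3]
      have h5 : (S (r N) : ℝ) ≤ 2 * N := by exact_mod_cast hS1 N
      nlinarith
    · filter_upwards [eventually_gt_atTop 1, hht.eventually (eventually_gt_atTop 1)] with N hN1 hh1
      have e1 : 0 < Real.log N := Real.log_pos (by exact_mod_cast hN1)
      have e2 : 0 < Real.log (h N) := Real.log_pos (by exact_mod_cast hh1)
      have e3 := hS0 hh1.le
      have e4 : (0 : ℝ) < h N := by positivity
      have e5 : 1 ≤ 2 * S (h N) := by have := hSn (h N); omega
      have e6 : (0 : ℝ) < r (2 * S (h N)) := by exact_mod_cast r_pos' hB e5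
      have h1 := l_mono hB hrr hN1.le (hN N)
      have h2 : Real.log (((2 * S (h N) : ℕ) : ℝ) / r (2 * S (h N))) ≤
          Real.log ((S (h N) : ℝ) / h N) + Real.log 16 := by
        rw [← Real.log_mul (by positivity) (by norm_num)]
        apply Real.log_le_log (by push_cast; positivity)
        rw [div_mul_eq_mul_div, div_le_div_iff₀ e6 e4]
        have h5 : (h N : ℝ) ≤ 8 * r (2 * S (h N)) := by exact_mod_cast hS2 (h N)
        push_cast
        nlinarith
      have h3 : Real.log (N / r N) ≤ Real.log ((S (h N) : ℝ) / h N) + Real.log 32 := by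
        have e7 : Real.log 32 = Real.log 16 + Real.log 2 := by
          rw [← Real.log_mul (by norm_num) (by norm_num)]
          norm_num
        rw [e7]
        linarith
      have h4 : 0 ≤ Real.log (N / r N) := l_nonneg hrle
      calc Real.log (N / r N) / Real.log N ^ β
          ≤ (Real.log ((S (h N) : ℝ) / h N) + Real.log 32) / Real.log N ^ β :=
            div_le_div_of_nonneg_right h3 (by positivity)
        _ ≤ _ := by
            apply div_le_div_of_nonneg_left (h4.trans h3) (by positivity)
            apply Real.rpow_le_rpow e2.le _ hβ.le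
            exact Real.log_le_log e4 (by exact_mod_cast hhN N)

end

end Pool.Agent.Run7.h945.ZG
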