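import Pool.Agent.Run7.h945.ZG.Hash
import Pool.Agent.Run7.h945.AG.Energy

/-!
The additive energy of sets of integers without `k`-term progressions.
-/

set_option autoImplicit false

namespace Pool.Agent.Run7.h945.ZG

open Finset
open scoped Pointwise
open Pool.Agent.H523R2.AP (APFree)
open Pool.Agent.H617R3.AP (r card_le_r r_mono r_le r_le_self)

/-- the bound for the energy of sets of integers -/
theorem energy_le {k : ℕ} (hk : 3 ≤ k) {A : Finset ℤ} (h : APFree k A) :
    ((A.addEnergy A : ℕ) : ℝ) ^ 21 * A.card ≤ 2 ^ 52 * (A.card : ℝ) ^ 63 * r k A.card := by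
  rcases A.eq_empty_or_nonempty with rfl | hne
  · simp
  have hn : (0 : ℝ) < A.card := by exact_mod_cast hne.card_pos
  have hE : (0 : ℝ) < (A.addEnergy A : ℕ) := by exact_mod_cast addEnergy_pos hne hne
  set K : ℝ := (A.card : ℝ) ^ 3 / (A.addEnergy A : ℕ) with hKdef
  have hK0 : 0 < K := by positivity
  have hKE : (A.card : ℝ) ^ 3 = K * (A.addEnergy A : ℕ) := by
    rw [hKdef]
    field_simp
  have hE3 : ((A.addEnergy A : ℕ) : ℝ) ≤ (A.card : ℝ) ^ 3 := by
    have h1 : A.addEnergy A ≤ A.card ^ 3 := by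
      have h2 : A.addEnergy A ≤ ((A ×ˢ A) ×ˢ A).card := by
        refine card_le_card_of_injOn (fun x => (x.1, x.2.1)) ?_ ?_
        · intro x hx
          rw [Finset.mem_coe, mem_filter, mem_product, mem_product, mem_product] at hx
          exact mem_coe.2 (mem_product.2 ⟨mem_product.2 hx.1.1, hx.1.2.1⟩)
        · intro x hx y hy hxy
          rw [Finset.mem_coe, mem_filter] at hx hy
          have e1 : x.1 = y.1 := (Prod.mk.inj hxy).1
          have e2 : x.2.1 = y.2.1 := (Prod.mk.inj hxy).2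
          have e3 : x.2.2 = y.2.2 := by
            have h3 := hx.2
            have h4 := hy.2
            rw [e1, e2, h4] at h3
            exact (add_left_cancel h3).symm
          exact Prod.ext e1 (Prod.ext e2 e3)
      refine h2.trans (le_of_eq ?_)
      rw [card_product, card_product]
      ring
    exact_mod_cast h1
  have hK1 : 1 ≤ K := by rw [hKdef, one_le_div hE]; exact hE3
  clear_value K
  clear hKdef
  obtain ⟨B, hB, hBne, h1, h2⟩ := Pool.Agent.H217R3.AK.bsg A hne K hK0 hKE.le
  have hb : (0 : ℝ) < B.card := by exact_mod_cast hBne.card_pos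
  have h3 := AG.card_add_mul_card_le hBne
  have h4 := card_le_add hk (AG.apf_mono h hB)
  -- the number of sums
  have h5 : ((B + B).card : ℝ) ≤ 2 ^ 44 * K ^ 20 * B.card := by
    have h6 : ((B + B).card : ℝ) * B.card ≤ (2 ^ 44 * K ^ 20 * B.card) * B.card := by
      calc _ ≤ ((B - B).card : ℝ) ^ 2 := h3
        _ ≤ (2 ^ 22 * K ^ 10 * B.card) ^ 2 := pow_le_pow_left₀ (by positivity) h2 2
        _ = _ := by ring
    exact le_of_mul_le_mul_right h6 hb
  have hBA : (B.card : ℝ) ≤ A.card := by exact_mod_cast card_le_card hB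
  have h7 := r_le (k := k) (by omega) (2 * (B + B).card) hne.card_pos
  have hr0 : (0 : ℝ) ≤ (r k A.card : ℝ) / A.card := by positivity
  have h8 : (r k (2 * (B + B).card) : ℝ) ≤ 2 ^ 46 * K ^ 20 * r k A.card := by
    calc (r k (2 * (B + B).card) : ℝ)
        ≤ ((2 * (B + B).card : ℕ) + (A.card : ℝ)) * ((r k A.card : ℝ) / A.card) := h7
      _ ≤ (2 ^ 46 * K ^ 20 * A.card) * ((r k A.card : ℝ) / A.card) := by
          apply mul_le_mul_of_nonneg_right _ hr0
          push_cast
          have h9 : ((B + B).card : ℝ) ≤ 2 ^ 44 * K ^ 20 * A.card :=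
            h5.trans (mul_le_mul_of_nonneg_left hBA (by positivity))
          have h10 : (1 : ℝ) ≤ K ^ 20 := one_le_pow₀ hK1
          nlinarith
      _ = _ := by field_simp
  have h9 : (A.card : ℝ) ≤ 2 ^ 52 * K ^ 21 * r k A.card := by
    have h10 : (B.card : ℝ) ≤ 8 * r k (2 * (B + B).card) := by exact_mod_cast h4
    calc (A.card : ℝ) ≤ 8 * K * B.card := h1
      _ ≤ 8 * K * (8 * (2 ^ 46 * K ^ 20 * r k A.card)) := by
          apply mul_le_mul_of_nonneg_left _ (by positivity)
          linarith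
      _ = _ := by ring
  calc ((A.addEnergy A : ℕ) : ℝ) ^ 21 * A.card
      ≤ ((A.addEnergy A : ℕ) : ℝ) ^ 21 * (2 ^ 52 * K ^ 21 * r k A.card) :=
        mul_le_mul_of_nonneg_left h9 (by positivity)
    _ = 2 ^ 52 * (K * (A.addEnergy A : ℕ)) ^ 21 * r k A.card := by ring
    _ = 2 ^ 52 * (A.card : ℝ) ^ 63 * r k A.card := by
        rw [← hKE]
        ring

end Pool.Agent.Run7.h945.ZG
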