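import Pool.Agent.H617R3.AP.Defs
import Pool.Agent.Run7.h945.AG.Core

/-!
Sets of integers without `k`-term progressions are moved to an interval whose length is about the
number of the sums of two elements.
-/

set_option autoImplicit false

namespace Pool.Agent.Run7.h945.ZG

open Finset
open scoped Pointwise

/-- `l v` is congruent modulo `p` to a small nonzero multiple of `N`. -/
def Bad (p N : ℕ) (l : ℕ) (v : ℤ) : Prop :=
  ∃ j : ℤ, j ≠ 0 ∧ 2 * (N * |j|) < p ∧ (p : ℤ) ∣ l * v - N * j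

open Classical in
lemma card_bad {p N : ℕ} (hp : p.Prime) (hN : 0 < N) {v : ℤ} (hv : ¬ (p : ℤ) ∣ v) :
    N * ((Icc 1 (p - 1)).filter fun l => Bad p N l v).card ≤ p - 1 := by
  set J : ℕ := (p - 1) / 2 / N with hJ
  have hpp : Prime (p : ℤ) := Nat.prime_iff_prime_int.1 hp
  have hch : ∀ l : ℕ, ∃ j : ℤ, Bad p N l v → j ≠ 0 ∧ 2 * (N * |j|) < p ∧ (p : ℤ) ∣ l * v - N * j := by
    intro l
    by_cases h : Bad p N l v
    · obtain ⟨j, hj⟩ := h
      exact ⟨j, fun _ => hj⟩
    · exact ⟨0, fun h' => absurd h' h⟩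
  choose f hf using hch
  have h1 : ((Icc 1 (p - 1)).filter fun l => Bad p N l v).card ≤
      ((Icc (-(J : ℤ)) J).erase 0).card := by
    refine card_le_card_of_injOn f ?_ ?_
    · intro l hl
      have hl' := (mem_filter.1 (mem_coe.1 hl)).2
      obtain ⟨h0, h2, -⟩ := hf l hl'
      rw [mem_coe, mem_erase, mem_Icc]
      refine ⟨h0, ?_⟩
      rw [← abs_le]
      obtain ⟨m, hm⟩ := Int.eq_ofNat_of_zero_le (abs_nonneg (f l))
      rw [hm] at h2 ⊢
      have h3 : 2 * (N * m) < p := by exact_mod_cast h2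
      have h4 : m ≤ J := by
        rw [hJ, Nat.le_div_iff_mul_le hN, Nat.le_div_iff_mul_le two_pos]
        have : m * N * 2 = 2 * (N * m) := by ring
        omega
      exact_mod_cast h4
    · intro l hl l' hl' h
      have hl1 := mem_filter.1 (mem_coe.1 hl)
      have hl2 := mem_filter.1 (mem_coe.1 hl')
      have a1 := (hf l hl1.2).2.2
      have a2 := (hf l' hl2.2).2.2
      rw [h] at a1
      have a3 := dvd_sub a1 a2
      have e : (l : ℤ) * v - N * f l' - (l' * v - N * f l') = ((l : ℤ) - l') * v := by ring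
      rw [e] at a3
      rcases hpp.dvd_or_dvd a3 with a4 | a4
      · have b1 := mem_Icc.1 hl1.1
        have b2 := mem_Icc.1 hl2.1
        obtain ⟨c, hc⟩ := a4
        have hp1 := hp.one_lt
        have hc0 : c = 0 := by
          by_contra hc0
          have : (p : ℤ) ≤ |(l : ℤ) - l'| := by
            rw [hc, abs_mul]
            have h5 : 1 ≤ |c| := Int.one_le_abs hc0
            have h6 : |(p : ℤ)| = p := abs_of_nonneg (by positivity)
            rw [h6]
            nlinarith [(Nat.cast_nonneg p : (0 : ℤ) ≤ p)]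
          have h7 : |(l : ℤ) - l'| < p := by
            rw [abs_lt]
            omega
          omega
        rw [hc0, mul_zero] at hc
        omega
      · exact absurd a4 hv
  have h2 : ((Icc (-(J : ℤ)) J).erase 0).card = 2 * J := by
    have hJ0 : (0 : ℤ) ≤ J := Int.natCast_nonneg J
    rw [card_erase_of_mem (by rw [mem_Icc]; constructor <;> linarith), Int.card_Icc]
    clear_value J
    omega
  rw [h2] at h1
  have h3 : 2 * (N * J) ≤ p - 1 := by
    have e1 : J * N ≤ (p - 1) / 2 := Nat.div_mul_le_self _ _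
    have e2 : (p - 1) / 2 * 2 ≤ p - 1 := Nat.div_mul_le_self _ _
    have e3 : 2 * (N * J) = J * N * 2 := by ring
    omega
  calc _ ≤ N * (2 * J) := Nat.mul_le_mul_left _ h1
    _ = 2 * (N * J) := by ring
    _ ≤ _ := h3

open Classical in
/-- a dilation that is good at most elements -/
theorem exists_dilation {p N : ℕ} (hp : p.Prime) (hN : 0 < N) (A : Finset ℤ) (T : ℤ → Finset ℤ)
    (hT : ∀ a ∈ A, ∀ v ∈ T a, ¬ (p : ℤ) ∣ v) (t : ℕ) (ht : ∀ a ∈ A, (T a).card ≤ t)
    (hNt : 2 * t ≤ N) :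
    ∃ l ∈ Icc 1 (p - 1), ∃ J ⊆ A, A.card ≤ 2 * J.card ∧ ∀ a ∈ J, ∀ v ∈ T a, ¬ Bad p N l v := by
  set P : Finset (Σ _ : ℤ, ℤ) := A.sigma T with hP
  have hsum : ∑ l ∈ Icc 1 (p - 1), N * (P.filter fun x => Bad p N l x.2).card ≤
      ∑ _l ∈ Icc 1 (p - 1), P.card := by
    calc ∑ l ∈ Icc 1 (p - 1), N * (P.filter fun x => Bad p N l x.2).card
        = ∑ l ∈ Icc 1 (p - 1), ∑ x ∈ P, N * (if Bad p N l x.2 then 1 else 0) := by
          refine sum_congr rfl fun l _ => ?_
          rw [card_filter, mul_sum]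
      _ = ∑ x ∈ P, N * ((Icc 1 (p - 1)).filter fun l => Bad p N l x.2).card := by
          rw [sum_comm]
          refine sum_congr rfl fun x _ => ?_
          rw [card_filter, mul_sum]
      _ ≤ ∑ _x ∈ P, (p - 1) := by
          refine sum_le_sum fun x hx => ?_
          rw [hP, mem_sigma] at hx
          exact card_bad hp hN (hT _ hx.1 _ hx.2)
      _ = ∑ _l ∈ Icc 1 (p - 1), P.card := by
          rw [sum_const, sum_const, smul_eq_mul, smul_eq_mul, Nat.card_Icc, mul_comm]
          congr 1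
  have hne : (Icc 1 (p - 1)).Nonempty := by
    have := hp.two_le
    exact ⟨1, mem_Icc.2 ⟨le_rfl, by omega⟩⟩
  obtain ⟨l, hl, hle⟩ := exists_le_of_sum_le hne hsum
  refine ⟨l, hl, A.filter fun a => ∀ v ∈ T a, ¬ Bad p N l v, filter_subset _ _, ?_,
    fun a ha => (mem_filter.1 ha).2⟩
  have h1 : (A.filter fun a => ¬ ∀ v ∈ T a, ¬ Bad p N l v) ⊆
      (P.filter fun x => Bad p N l x.2).image Sigma.fst := by
    intro a ha
    rw [mem_filter] at ha
    obtain ⟨ha, ha'⟩ := ha
    push Not at ha'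
    obtain ⟨v, hv, hv'⟩ := ha'
    exact mem_image.2 ⟨⟨a, v⟩, mem_filter.2 ⟨mem_sigma.2 ⟨ha, hv⟩, hv'⟩, rfl⟩
  have h2 := card_filter_add_card_filter_not (s := A) (fun a => ∀ v ∈ T a, ¬ Bad p N l v)
  have h3 : (A.filter fun a => ¬ ∀ v ∈ T a, ¬ Bad p N l v).card ≤
      (P.filter fun x => Bad p N l x.2).card := (card_le_card h1).trans card_image_le
  have h4 : P.card ≤ A.card * t := by
    rw [hP, card_sigma]
    exact sum_le_card_nsmul _ _ _ ht
  set b := (A.filter fun a => ¬ ∀ v ∈ T a, ¬ Bad p N l v).card with hb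
  have h5 : N * b ≤ A.card * t := (Nat.mul_le_mul_left _ h3).trans (hle.trans h4)
  have h6 : 2 * b ≤ A.card := by
    rcases Nat.eq_zero_or_pos t with rfl | ht'
    · rw [mul_zero, Nat.le_zero, mul_eq_zero] at h5
      omega
    · have h7 : t * (2 * b) ≤ t * A.card := by
        calc t * (2 * b) = 2 * t * b := by ring
          _ ≤ N * b := Nat.mul_le_mul_right _ hNt
          _ ≤ A.card * t := h5
          _ = _ := by ring
      exact Nat.le_of_mul_le_mul_left h7 ht'
  omega

open Pool.Agent.H523R2.AP (APFree)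
open Pool.Agent.H617R3.AP (r card_le_r)

/-- the residue of `l x` modulo `p` -/
def u (p l : ℕ) (x : ℤ) : ℤ := ((l : ℤ) * x) % p

/-- a good set of elements in one quarter has an injective image in `{1, ..., N}` without
progressions -/
lemma quarter {k p N l i : ℕ} (hp : p.Prime) (hN : 0 < N) (hl : l ∈ Icc 1 (p - 1))
    {A J : Finset ℤ} (h : APFree k A) (hJ : J ⊆ A)
    (hq : ∀ x ∈ J, (i : ℤ) * p ≤ 4 * u p l x ∧ 4 * u p l x < (i + 1) * p)
    (hgood : ∀ a ∈ J, ∀ b ∈ J, ∀ c ∈ J, a + c - (b + b) ≠ 0 →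
      ¬ (p : ℤ) ∣ a + c - (b + b) ∧ ¬ Bad p N l (a + c - (b + b))) (hk : 3 ≤ k) :
    J.card ≤ r k N := by
  classical
  have hpp : Prime (p : ℤ) := Nat.prime_iff_prime_int.1 hp
  have hNZ : (0 : ℤ) < N := by exact_mod_cast hN
  have hmod : ∀ x, (p : ℤ) ∣ l * x - u p l x := fun x => Int.dvd_self_sub_emod
  -- the main property
  have key : ∀ a ∈ J, ∀ b ∈ J, ∀ c ∈ J, (N : ℤ) ∣ u p l a + u p l c - 2 * u p l b →
      a + c = b + b := by
    intro a ha b hb c hc hd
    by_contra hne
    have hne' : a + c - (b + b) ≠ 0 := sub_ne_zero.2 hne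
    obtain ⟨g1, g2⟩ := hgood a ha b hb c hc hne'
    obtain ⟨j, hj⟩ := hd
    have hcong : (p : ℤ) ∣ l * (a + c - (b + b)) - N * j := by
      have h1 := dvd_sub (dvd_add (hmod a) (hmod c)) (dvd_add (hmod b) (hmod b))
      have e : (l : ℤ) * (a + c - (b + b)) - N * j = l * a - u p l a + (l * c - u p l c) -
          (l * b - u p l b + (l * b - u p l b)) := by
        rw [← hj]
        ring
      rw [e]
      exact h1
    by_cases hj0 : j = 0
    · rw [hj0, mul_zero, sub_zero] at hcong
      rcases hpp.dvd_or_dvd hcong with h1 | h1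
      · have h2 := mem_Icc.1 hl
        have h3 : p ∣ l := by exact_mod_cast h1
        have := Nat.le_of_dvd (by omega) h3
        omega
      · exact g1 h1
    · apply g2
      refine ⟨j, hj0, ?_, hcong⟩
      have q1 := hq a ha
      have q2 := hq b hb
      have q3 := hq c hc
      have h4 : 2 * |u p l a + u p l c - 2 * u p l b| < p := by
        have : 2 * |u p l a + u p l c - 2 * u p l b| = |2 * (u p l a + u p l c - 2 * u p l b)| := by
          rw [abs_mul, abs_two]
        rw [this, abs_lt]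
        constructor <;> nlinarith
      rw [hj, abs_mul, abs_of_pos hNZ] at h4
      exact h4
  set χ : ℤ → ℕ := fun x => (u p l x % N).toNat + 1 with hχ
  have hχ0 : ∀ x, ((χ x : ℕ) : ℤ) = u p l x % N + 1 := by
    intro x
    have := Int.emod_nonneg (u p l x) hNZ.ne'
    simp only [hχ]
    push_cast
    rw [Int.toNat_of_nonneg this]
  have hinj : Set.InjOn χ J := by
    intro a ha b hb hab
    have h1 : u p l a % N = u p l b % N := by
      have := hχ0 a
      rw [hab, hχ0 b] at this
      linarith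
    have h2 : (N : ℤ) ∣ u p l a - u p l b :=
      Int.dvd_of_emod_eq_zero (Int.emod_eq_emod_iff_emod_sub_eq_zero.1 h1)
    have h3 := key a ha b hb a ha (by
      have : u p l a + u p l a - 2 * u p l b = 2 * (u p l a - u p l b) := by ring
      rw [this]
      exact Dvd.dvd.mul_left h2 2)
    linarith
  rw [← card_image_of_injOn hinj]
  apply card_le_r
  · intro y hy
    obtain ⟨x, -, rfl⟩ := mem_image.1 hy
    rw [mem_Icc]
    refine ⟨by simp [hχ], ?_⟩
    have h1 := Int.emod_lt_of_pos (u p l x) hNZ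
    have h2 := hχ0 x
    omega
  · intro a0 d hd hmem
    have hch : ∀ j, ∃ x, j < k → x ∈ J ∧ χ x = a0 + j * d := by
      intro j
      by_cases hj : j < k
      · obtain ⟨x, hx, hx'⟩ := mem_image.1 (hmem j hj)
        exact ⟨x, fun _ => ⟨hx, hx'⟩⟩
      · exact ⟨0, fun h => absurd h hj⟩
    choose x hx using hch
    have h1 := (AG.apf_iff A).1 h x (fun j hj => hJ (hx j hj).1) (fun j hj => by
      apply key _ (hx j (by omega)).1 _ (hx (j + 1) (by omega)).1 _ (hx (j + 2) hj).1
      have e0 := hχ0 (x j)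
      have e1 := hχ0 (x (j + 1))
      have e2 := hχ0 (x (j + 2))
      rw [(hx j (by omega)).2] at e0
      rw [(hx (j + 1) (by omega)).2] at e1
      rw [(hx (j + 2) hj).2] at e2
      push_cast at e0 e1 e2
      have e3 : u p l (x j) % N + u p l (x (j + 2)) % N - 2 * (u p l (x (j + 1)) % N) = 0 := by
        linarith
      have d0 : (N : ℤ) ∣ u p l (x j) - u p l (x j) % N := Int.dvd_self_sub_emod
      have d1 : (N : ℤ) ∣ u p l (x (j + 1)) - u p l (x (j + 1)) % N := Int.dvd_self_sub_emod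
      have d2 : (N : ℤ) ∣ u p l (x (j + 2)) - u p l (x (j + 2)) % N := Int.dvd_self_sub_emod
      have d3 := dvd_sub (dvd_add d0 d2) (Dvd.dvd.mul_left d1 2)
      have e4 : u p l (x j) - u p l (x j) % N + (u p l (x (j + 2)) - u p l (x (j + 2)) % N) -
          2 * (u p l (x (j + 1)) - u p l (x (j + 1)) % N) =
          u p l (x j) + u p l (x (j + 2)) - 2 * u p l (x (j + 1)) := by linarith
      rwa [e4] at d3)
    have h2 := (hx 0 (by omega)).2
    have h3 := (hx 1 (by omega)).2
    rw [h1, h3] at h2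
    have : d = 0 := by
      rw [one_mul, zero_mul, add_zero] at h2
      omega
    omega

/-- the common part of the two bounds -/
lemma bound_of_family {k : ℕ} (hk : 3 ≤ k) {A : Finset ℤ} (h : APFree k A) (T : ℤ → Finset ℤ)
    (h0 : ∀ a ∈ A, (0 : ℤ) ∉ T a) (t : ℕ) (ht0 : 0 < t) (ht : ∀ a ∈ A, (T a).card ≤ t)
    (hT : ∀ J ⊆ A, ∀ a ∈ J, ∀ b ∈ J, ∀ c ∈ J, a + c - (b + b) ≠ 0 →
      ∃ e ∈ J, a + c - (b + b) ∈ T e) :
    A.card ≤ 8 * r k (2 * t) := by
  classical
  -- a large prime
  obtain ⟨p, hpM, hp⟩ := Nat.exists_infinite_primes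
    ((∑ a ∈ A, ∑ v ∈ T a, v.natAbs) + 1)
  have hpv : ∀ a ∈ A, ∀ v ∈ T a, ¬ (p : ℤ) ∣ v := by
    intro a ha v hv hd
    have h1 : v.natAbs ≤ ∑ a ∈ A, ∑ v ∈ T a, v.natAbs :=
      (single_le_sum (f := fun v : ℤ => v.natAbs) (fun _ _ => Nat.zero_le _) hv).trans
        (single_le_sum (f := fun a => ∑ v ∈ T a, v.natAbs) (fun _ _ => Nat.zero_le _) ha)
    have h2 : v ≠ 0 := fun h' => h0 a ha (h' ▸ hv)
    have h3 := Int.natAbs_dvd_natAbs.2 hd
    rw [Int.natAbs_natCast] at h3
    have := Nat.le_of_dvd (Int.natAbs_pos.2 h2) h3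
    omega
  have hN : 0 < 2 * t := by omega
  obtain ⟨l, hl, J, hJ, h1, h2⟩ := exists_dilation hp hN A T hpv t ht le_rfl
  have hp0 : (0 : ℤ) < p := by exact_mod_cast hp.pos
  -- the quarters
  have hmaps : ∀ x ∈ J, (4 * u p l x / p).toNat ∈ range 4 := by
    intro x _
    rw [mem_range]
    have e1 := Int.emod_nonneg ((l : ℤ) * x) hp0.ne'
    have e2 := Int.emod_lt_of_pos ((l : ℤ) * x) hp0
    have e3 : 4 * u p l x / p < 4 := by
      rw [Int.ediv_lt_iff_lt_mul hp0]
      have : u p l x < p := e2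
      linarith
    have e4 : 0 ≤ 4 * u p l x / p := Int.ediv_nonneg (by unfold u; linarith) hp0.le
    omega
  have h3 : J.card ≤ 4 * r k (2 * t) := by
    rw [card_eq_sum_card_fiberwise hmaps]
    calc _ ≤ ∑ _i ∈ range 4, r k (2 * t) := by
          refine sum_le_sum fun i _ => ?_
          refine quarter (i := i) hp hN hl h ((filter_subset _ _).trans hJ) ?_ ?_ hk
          · intro x hx
            have hx' := (mem_filter.1 hx).2
            have e1 := Int.emod_nonneg ((l : ℤ) * x) hp0.ne'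
            have e4 : 0 ≤ 4 * u p l x / p := Int.ediv_nonneg (by unfold u; linarith) hp0.le
            have e5 : 4 * u p l x / p = i := by omega
            have e6 := Int.ediv_mul_le (4 * u p l x) hp0.ne'
            have e7 := Int.lt_ediv_add_one_mul_self (4 * u p l x) hp0
            rw [e5] at e6 e7
            exact ⟨e6, e7⟩
          · intro a ha b hb c hc hne
            have ha' := (mem_filter.1 ha).1
            have hb' := (mem_filter.1 hb).1
            have hc' := (mem_filter.1 hc).1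
            obtain ⟨e, he, hv⟩ := hT J hJ a ha' b hb' c hc' hne
            exact ⟨hpv e (hJ he) _ hv, h2 e he _ hv⟩
      _ = 4 * r k (2 * t) := by rw [sum_const, card_range, smul_eq_mul]
  omega

/-- **The bound by the number of sums.** -/
theorem card_le_add {k : ℕ} (hk : 3 ≤ k) {A : Finset ℤ} (h : APFree k A) :
    A.card ≤ 8 * r k (2 * (A + A).card) := by
  rcases A.eq_empty_or_nonempty with rfl | hne
  · simp
  refine bound_of_family hk h (AG.mid A) (fun a _ => notMem_erase _ _) _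
    (card_pos.2 (hne.add hne)) (fun a _ => AG.card_mid A a) ?_
  intro J hJ a ha b hb c hc hv
  exact ⟨b, hb, mem_erase.2 ⟨hv, mem_image.2 ⟨a + c, add_mem_add (hJ ha) (hJ hc), rfl⟩⟩⟩

/-- **The bound by the number of the elements `b - 2 c`.** -/
theorem card_le_sub {k : ℕ} (hk : 3 ≤ k) {A : Finset ℤ} (h : APFree k A) :
    A.card ≤ 8 * r k (2 * (A - AG.dbl A).card) := by
  rcases A.eq_empty_or_nonempty with rfl | hne
  · simp
  refine bound_of_family hk h (AG.out A) (fun a _ => notMem_erase _ _) _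
    (card_pos.2 (hne.sub (hne.image _))) (fun a _ => AG.card_out A a) ?_
  intro J hJ a ha b hb c hc hv
  refine ⟨a, ha, mem_erase.2 ⟨hv, mem_image.2 ⟨c - (b + b),
    sub_mem_sub (hJ hc) (mem_image_of_mem (fun x => x + x) (hJ hb)), by ring⟩⟩⟩

end Pool.Agent.Run7.h945.ZG
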