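import Pool.Agent.Run7.h945.ZG.Hash

/-!
The same for torsion-free groups.
-/

set_option autoImplicit false

namespace Pool.Agent.Run7.h945.ZG

open Finset
open scoped Pointwise
open Pool.Agent.H523R2.AP (APFree)
open Pool.Agent.H617R3.AP (r card_le_r)

/-- a homomorphism to `ℤ` which does not vanish at finitely many nonzero elements -/
lemma exists_hom {H : Type*} [AddCommGroup H] [Module.Free ℤ H] [Module.Finite ℤ H]
    (D : Finset H) (h0 : (0 : H) ∉ D) : ∃ φ : H →+ ℤ, ∀ v ∈ D, φ v ≠ 0 := by
  classical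
  let e : H ≃ₗ[ℤ] (Fin (Module.finrank ℤ H) → ℤ) := (Module.finBasis ℤ H).equivFun
  let P : H → Polynomial ℤ := fun v => ∑ i, Polynomial.C (e v i) * Polynomial.X ^ (i : ℕ)
  have hP : ∀ v ∈ D, P v ≠ 0 := by
    intro v hv hPv
    apply h0
    have h1 : e v = 0 := by
      funext i
      have h2 : (P v).coeff i = e v i := by
        simp only [P, Polynomial.finset_sum_coeff, Polynomial.coeff_C_mul_X_pow]
        rw [sum_eq_single i]
        · simp
        · intro j _ hj
          rw [if_neg]
          intro h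
          exact hj (Fin.ext h.symm)
        · intro h
          exact absurd (mem_univ _) h
      rw [← h2, hPv]
      simp
    rw [← (LinearEquiv.map_eq_zero_iff e).1 h1]
    exact hv
  have hprod : ∏ v ∈ D, P v ≠ 0 := prod_ne_zero_iff.2 hP
  obtain ⟨M, hM⟩ : ∃ M : ℤ, (∏ v ∈ D, P v).eval M ≠ 0 := by
    by_contra hcon
    push Not at hcon
    exact hprod (Polynomial.funext fun x => by rw [hcon x, Polynomial.eval_zero])
  refine ⟨{ toFun := fun v => ∑ i, e v i * M ^ (i : ℕ)
            map_zero' := by simp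
            map_add' := fun x y => by
              rw [← sum_add_distrib]
              refine sum_congr rfl fun i _ => ?_
              rw [map_add, Pi.add_apply, add_mul] }, fun v hv => ?_⟩
  rw [Polynomial.eval_prod] at hM
  have h1 := prod_ne_zero_iff.1 hM v hv
  intro h2
  apply h1
  simp only [P, Polynomial.eval_finset_sum, Polynomial.eval_mul, Polynomial.eval_C,
    Polynomial.eval_pow, Polynomial.eval_X]
  exact h2

/-- a set without progressions in a free group of finite rank has an isomorphic image in `ℤ` -/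
lemma exists_image {H : Type*} [AddCommGroup H] [Module.Free ℤ H] [Module.Finite ℤ H]
    [DecidableEq H] {k : ℕ} (hk : 3 ≤ k) {A : Finset H} (h : APFree k A) :
    ∃ φ : H →+ ℤ, APFree k (A.image φ) ∧ Set.InjOn φ A := by
  classical
  obtain ⟨φ, hφ⟩ := exists_hom (((A + A) - (A + A)).erase 0) (notMem_erase _ _)
  have key : ∀ a ∈ A, ∀ b ∈ A, ∀ c ∈ A, ∀ d ∈ A, φ a + φ b = φ c + φ d → a + b = c + d := by
    intro a ha b hb c hc d hd hs
    by_contra hne
    refine hφ (a + b - (c + d)) (mem_erase.2 ⟨sub_ne_zero.2 hne,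
      sub_mem_sub (add_mem_add ha hb) (add_mem_add hc hd)⟩) ?_
    rw [map_sub, map_add, map_add, hs, sub_self]
  have hinj : Set.InjOn φ A := by
    intro a ha b hb hab
    exact add_right_cancel (key a ha b hb b hb b hb (by rw [hab]))
  refine ⟨φ, ?_, hinj⟩
  rw [AG.apf_iff]
  intro b hb hs
  obtain ⟨a0, ha0, -⟩ := mem_image.1 (hb 0 (by omega))
  have hch : ∀ j, ∃ a, a ∈ A ∧ (j < k → φ a = b j) := by
    intro j
    by_cases hj : j < k
    · obtain ⟨a, ha, hab⟩ := mem_image.1 (hb j hj)
      exact ⟨a, ha, fun _ => hab⟩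
    · exact ⟨a0, ha0, fun h => absurd h hj⟩
  choose a ha hab using hch
  have h1 := (AG.apf_iff A).1 h a (fun j _ => ha j) (fun j hj =>
    key _ (ha _) _ (ha _) _ (ha _) _ (ha _) (by
      rw [hab j (by omega), hab (j + 2) hj, hab (j + 1) (by omega), hs j hj]))
  rw [← hab 0 (by omega), ← hab 1 (by omega), h1]

lemma image_sub' {H K : Type*} [AddCommGroup H] [AddCommGroup K] [DecidableEq H] [DecidableEq K]
    (f : H →+ K) (s t : Finset H) : (s - t).image f = s.image f - t.image f :=
  image_image₂_distrib (map_sub f)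

lemma image_add' {H K : Type*} [AddCommGroup H] [AddCommGroup K] [DecidableEq H] [DecidableEq K]
    (f : H →+ K) (s t : Finset H) : (s + t).image f = s.image f + t.image f :=
  image_image₂_distrib (map_add f)

lemma dbl_image {H K : Type*} [AddCommGroup H] [AddCommGroup K] [DecidableEq H] [DecidableEq K]
    (f : H →+ K) (s : Finset H) : AG.dbl (s.image f) = (AG.dbl s).image f := by
  ext y
  simp only [AG.dbl, mem_image]
  constructor
  · rintro ⟨_, ⟨a, ha, rfl⟩, rfl⟩
    exact ⟨a + a, ⟨a, ha, rfl⟩, map_add f a a⟩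
  · rintro ⟨_, ⟨a, ha, rfl⟩, rfl⟩
    exact ⟨f a, ⟨a, ha, rfl⟩, (map_add f a a).symm⟩

/-- the bounds for torsion-free groups -/
theorem torsionfree {G : Type*} [AddCommGroup G] [IsAddTorsionFree G] [DecidableEq G] {k : ℕ}
    (hk : 3 ≤ k) {A : Finset G} (h : APFree k A) :
    ∃ B : Finset ℤ, APFree k B ∧ B.card = A.card ∧ (B + B).card ≤ (A + A).card ∧
      (B - AG.dbl B).card ≤ (A - AG.dbl A).card ∧ A.addEnergy A ≤ B.addEnergy B := by
  classical
  set H := AddSubgroup.closure (A : Set G) with hH
  have : Module.Finite ℤ H := Module.Finite.iff_addGroup_fg.2 inferInstance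
  set A' : Finset H := A.attach.image fun a => ⟨a.1, AddSubgroup.subset_closure a.2⟩ with hA'
  have hmem : ∀ x : H, x ∈ A' ↔ (x : G) ∈ A := by
    intro x
    rw [hA', mem_image]
    constructor
    · rintro ⟨a, -, rfl⟩
      exact a.2
    · intro hx
      exact ⟨⟨x, hx⟩, mem_attach _ _, rfl⟩
  have himg : A'.image (fun x : H => (x : G)) = A := by
    ext x
    rw [mem_image]
    constructor
    · rintro ⟨y, hy, rfl⟩
      exact (hmem y).1 hy
    · intro hx
      exact ⟨⟨x, AddSubgroup.subset_closure hx⟩, (hmem _).2 hx, rfl⟩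
  have hsub : Function.Injective (fun x : H => (x : G)) := Subtype.val_injective
  have hfree : APFree k A' := by
    intro x y hy h'
    refine h x y (fun h0 => hy (Subtype.ext h0)) fun j hj => ?_
    have := (hmem _).1 (h' j hj)
    simpa using this
  obtain ⟨φ, hφ, hinj⟩ := exists_image hk hfree
  have hcA : A'.card = A.card := by
    rw [← himg, card_image_of_injective _ hsub]
  have e1 : (A'.image φ) + (A'.image φ) = (A' + A').image φ := (image_add' φ _ _).symm
  have e2 : A + A = (A' + A').image (fun x : H => (x : G)) := by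
    have := image_add' (AddSubgroup.subtype H) A' A'
    have h3 : A'.image (AddSubgroup.subtype H) = A := himg
    rw [h3] at this
    exact this.symm
  have e3 : (A'.image φ) - AG.dbl (A'.image φ) = (A' - AG.dbl A').image φ := by
    rw [dbl_image φ A']
    exact (image_sub' φ _ _).symm
  have e4 : A - AG.dbl A = (A' - AG.dbl A').image (fun x : H => (x : G)) := by
    have := image_sub' (AddSubgroup.subtype H) A' (AG.dbl A')
    have h3 : A'.image (AddSubgroup.subtype H) = A := himg
    have h4 : (AG.dbl A').image (AddSubgroup.subtype H) = AG.dbl A := by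
      rw [← dbl_image (AddSubgroup.subtype H) A', h3]
    rw [h3, h4] at this
    exact this.symm
  refine ⟨A'.image φ, hφ, by rw [card_image_of_injOn hinj, hcA], ?_, ?_, ?_⟩
  · rw [e1, e2, card_image_of_injective _ hsub]
    exact card_image_le
  · rw [e3, e4, card_image_of_injective _ hsub]
    exact card_image_le
  · -- energies
    have e5 : A.addEnergy A ≤ A'.addEnergy A' := by
      refine card_le_card_of_surjOn (fun x : (H × H) × H × H =>
        (((x.1.1 : G), (x.1.2 : G)), ((x.2.1 : G), (x.2.2 : G)))) ?_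
      rintro ⟨⟨a, b⟩, c, d⟩ hx
      rw [mem_coe, mem_filter, mem_product, mem_product, mem_product] at hx
      obtain ⟨⟨⟨ha, hb⟩, hc, hd⟩, hs⟩ := hx
      simp only at ha hb hc hd hs
      refine ⟨((⟨a, AddSubgroup.subset_closure ha⟩, ⟨b, AddSubgroup.subset_closure hb⟩),
        ⟨c, AddSubgroup.subset_closure hc⟩, ⟨d, AddSubgroup.subset_closure hd⟩), ?_, rfl⟩
      rw [mem_coe, mem_filter, mem_product, mem_product, mem_product]
      exact ⟨⟨⟨(hmem _).2 ha, (hmem _).2 hb⟩, (hmem _).2 hc, (hmem _).2 hd⟩, Subtype.ext hs⟩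
    refine e5.trans ?_
    refine card_le_card_of_injOn (fun x : (H × H) × H × H =>
      ((φ x.1.1, φ x.1.2), (φ x.2.1, φ x.2.2))) ?_ ?_
    · intro x hx
      rw [mem_coe, mem_filter, mem_product, mem_product, mem_product] at hx
      rw [mem_coe, mem_filter, mem_product, mem_product, mem_product]
      refine ⟨⟨⟨mem_image_of_mem _ hx.1.1.1, mem_image_of_mem _ hx.1.1.2⟩,
        mem_image_of_mem _ hx.1.2.1, mem_image_of_mem _ hx.1.2.2⟩, ?_⟩
      simp only
      rw [← map_add, ← map_add, hx.2]
    · intro x hx y hy hxy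
      rw [mem_coe, mem_filter, mem_product, mem_product, mem_product] at hx hy
      simp only [Prod.mk.injEq] at hxy
      exact Prod.ext (Prod.ext (hinj hx.1.1.1 hy.1.1.1 hxy.1.1) (hinj hx.1.1.2 hy.1.1.2 hxy.1.2))
        (Prod.ext (hinj hx.1.2.1 hy.1.2.1 hxy.2.1) (hinj hx.1.2.2 hy.1.2.2 hxy.2.2))

end Pool.Agent.Run7.h945.ZG
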